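import Pool.Agent.Work.MP_1e0b64_lc.X.Sim

/-!
Spanning tree congestion on bipartite planar graphs is hard for alternating polynomial time, space
`s log n` and logarithmically many universal steps, under a logarithmic-space reduction that
produces treewidth linear in `s`.
-/

namespace Pool.Agent.Results.MP_1e0b64_lc.PlanarXALP

open Pool.Agent.Lib.Cx Pool.Agent.Work.MP_1e0b64_lc Pool.Agent.Work.MP_1e0b64_lc.X

theorem result (M : ATM) : ∃ R : List Bool → List Bool, LogspaceComputable R ∧
    ∀ (x : List Bool) (s T D : ℕ), ∃ (N : ℕ) (H : SimpleGraph (Fin N)) (K : ℕ),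
      R (pre s (pre T (pre D x))) = encode H K ∧ H.Connected ∧ H.IsBipartite ∧ IsPlanar H ∧
      TreewidthLE H (144 * s + 294) ∧
      (stc H ≤ K ↔ M.Accepts x (s * (Nat.log 2 x.length + 1)) T (Nat.log 2 D)) :=
  (X.main M).imp fun _ h => ⟨h.1.logspaceComputable, h.2⟩

end Pool.Agent.Results.MP_1e0b64_lc.PlanarXALP
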