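import Pool.Agent.Work.MP_1e0b64_lc.Sim

/-!
Spanning tree congestion on bipartite planar graphs is hard for nondeterministic polynomial time and
space `s log n`, under a logarithmic-space reduction that produces pathwidth linear in `s`.
-/

namespace Pool.Agent.Results.MP_1e0b64_lc.PlanarXNLP

open Pool.Agent.Lib.Cx Pool.Agent.Work.MP_1e0b64_lc

theorem result (M : NTM) : ∃ R : List Bool → List Bool, LogspaceComputable R ∧
    ∀ (x : List Bool) (s t : ℕ), ∃ (N : ℕ) (H : SimpleGraph (Fin N)) (K : ℕ),
      R (pre s (pre t x)) = encode H K ∧ H.Connected ∧ H.IsBipartite ∧ IsPlanar H ∧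
      PathwidthLE H (48 * s + 58) ∧
      (stc H ≤ K ↔ M.Accepts x (s * (Nat.log 2 x.length + 1)) t) :=
  (main M).imp fun _ h => ⟨h.1.logspaceComputable, h.2⟩

end Pool.Agent.Results.MP_1e0b64_lc.PlanarXNLP
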